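import Mathlib
import Pool.Agent.Hhelper81.TwoNearPerfectMain
import Pool.Agent.Hhelper81.TwoNearPerfectTwo

namespace Pool.Agent.Results.MP_d695ac_nt.Classification

open Finset Pool.Agent.Hhelper81.TwoNearPerfectAux Pool.Agent.Hhelper81.TwoNearPerfectMain
  Pool.Agent.Hhelper81.TwoNearPerfectTwo

/-- `n` is 2-near perfect: `n > 0` and `σ(n) = 2n + d₁ + d₂` for two distinct divisors
`d₁, d₂` of `n`. -/
def IsTwoNearPerfect (n : ℕ) : Prop :=
  0 < n ∧ ∃ d₁ d₂ : ℕ, d₁ ∣ n ∧ d₂ ∣ n ∧ d₁ ≠ d₂ ∧ ∑ d ∈ n.divisors, d = 2 * n + d₁ + d₂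

lemma sum_divisors_two_pow_mul (k m p : ℕ) (hp : p.Prime) (hodd : Odd p) :
    ∑ d ∈ (2 ^ k * p ^ m).divisors, d
      = (∑ i ∈ range (k + 1), 2 ^ i) * ∑ i ∈ range (m + 1), p ^ i := by
  have hcop : Nat.Coprime (2 ^ k) (p ^ m) :=
    Nat.Coprime.pow _ _ (Nat.coprime_two_left.2 hodd)
  rw [← ArithmeticFunction.sigma_one_apply,
    ArithmeticFunction.isMultiplicative_sigma.map_mul_of_coprime hcop,
    ArithmeticFunction.sigma_one_apply_prime_pow Nat.prime_two,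
    ArithmeticFunction.sigma_one_apply_prime_pow hp]

/-- the key equation -/
lemma key_eq (k m p d₁ d₂ : ℕ) (hp : p.Prime) (hodd : Odd p)
    (h : ∑ d ∈ (2 ^ k * p ^ m).divisors, d = 2 * (2 ^ k * p ^ m) + d₁ + d₂) :
    ((2:ℤ) ^ (k + 1) - p) * (∑ i ∈ range m, (p:ℤ) ^ i) = 1 + d₁ + d₂ := by
  rw [sum_divisors_two_pow_mul k m p hp hodd] at h
  have h' : ((∑ i ∈ range (k + 1), (2:ℤ) ^ i) * ∑ i ∈ range (m + 1), (p:ℤ) ^ i)
      = 2 * (2 ^ k * p ^ m) + d₁ + d₂ := by exact_mod_cast h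
  have e1 : (∑ i ∈ range (k + 1), (2:ℤ) ^ i) = 2 ^ (k + 1) - 1 := by
    have := geom_sum_mul (2:ℤ) (k + 1)
    linarith
  have e2 : ∑ i ∈ range (m + 1), (p:ℤ) ^ i = (∑ i ∈ range m, (p:ℤ) ^ i) + p ^ m :=
    sum_range_succ _ _
  have e3 : (∑ i ∈ range m, (p:ℤ) ^ i) * ((p:ℤ) - 1) = (p:ℤ) ^ m - 1 := geom_sum_mul (p:ℤ) m
  rw [e1, e2] at h'
  have e4 : (2:ℤ) ^ (k + 1) = 2 * 2 ^ k := by ring
  rw [e4] at h' ⊢
  linear_combination h' - e3

lemma main_dir (k m p : ℕ) (hp : p.Prime) (hm : 2 ≤ m) (h : IsTwoNearPerfect (2 ^ k * p ^ m)) :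
    2 ^ k * p ^ m = 18 ∨ 2 ^ k * p ^ m = 36 ∨ 2 ^ k * p ^ m = 200 ∨
      ∃ j, (2 ^ (j + 1) - 1).Prime ∧ 2 ^ k * p ^ m = 2 ^ j * (2 ^ (j + 1) - 1) ^ 3 := by
  obtain ⟨_, d₁, d₂, h1, h2, hne, hsum⟩ := h
  rcases hp.eq_two_or_odd' with rfl | hodd
  · -- p = 2 : sum of divisors of 2^(k+m) is < 2 n
    exfalso
    have e0 : 2 ^ k * 2 ^ m = 2 ^ (k + m) := by ring
    rw [e0] at hsum
    rw [← ArithmeticFunction.sigma_one_apply,
      ArithmeticFunction.sigma_one_apply_prime_pow Nat.prime_two] at hsum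
    have e1 : (∑ i ∈ range (k + m + 1), 2 ^ i) < 2 ^ (k + m + 1) := by
      have := Nat.geomSum_lt (m := 2) (n := k + m + 1) (s := range (k + m + 1)) le_rfl
        (fun i hi => Finset.mem_range.1 hi)
      exact this
    have e2 : 2 ^ (k + m + 1) = 2 * 2 ^ (k + m) := by ring
    omega
  · -- wlog ordering
    have key : ∀ d₁ d₂ : ℕ, (∃ a b c e, a ≤ k ∧ c ≤ k ∧ e ≤ m ∧ (b < e ∨ (b = e ∧ a < c)) ∧
        d₁ = 2 ^ a * p ^ b ∧ d₂ = 2 ^ c * p ^ e) →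
        ∑ d ∈ (2 ^ k * p ^ m).divisors, d = 2 * (2 ^ k * p ^ m) + d₁ + d₂ →
        2 ^ k * p ^ m = 18 ∨ 2 ^ k * p ^ m = 36 ∨ 2 ^ k * p ^ m = 200 ∨
        ∃ j, (2 ^ (j + 1) - 1).Prime ∧ 2 ^ k * p ^ m = 2 ^ j * (2 ^ (j + 1) - 1) ^ 3 := by
      rintro d₁ d₂ ⟨a, b, c, e, ha, hc, hem, hbe, rfl, rfl⟩ hs
      have hkey := key_eq k m p _ _ hp hodd hs
      push_cast at hkey
      rcases Nat.lt_or_ge m 3 with hm3 | hm3
      · have hm2 : m = 2 := by omega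
        subst hm2
        have := main_eq2 p hp hodd k a b c e ha hc hbe hem hkey
        rcases this with ⟨hp', hX⟩ | ⟨hp', hX⟩ | ⟨hp', hX⟩
        · have hp'' : p = 3 := by exact_mod_cast hp'
          have hX' : 2 ^ (k + 1) = 4 := by exact_mod_cast hX
          have hk : k = 1 := by
            have : 2 ^ (k + 1) = 2 ^ 2 := by rw [hX']; norm_num
            have := Nat.pow_right_injective le_rfl this
            omega
          left; rw [hp'', hk]; norm_num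
        · have hp'' : p = 3 := by exact_mod_cast hp'
          have hX' : 2 ^ (k + 1) = 8 := by exact_mod_cast hX
          have hk : k = 2 := by
            have : 2 ^ (k + 1) = 2 ^ 3 := by rw [hX']; norm_num
            have := Nat.pow_right_injective le_rfl this
            omega
          right; left; rw [hp'', hk]; norm_num
        · have hp'' : p = 5 := by exact_mod_cast hp'
          have hX' : 2 ^ (k + 1) = 16 := by exact_mod_cast hX
          have hk : k = 3 := by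
            have : 2 ^ (k + 1) = 2 ^ 4 := by rw [hX']; norm_num
            have := Nat.pow_right_injective le_rfl this
            omega
          right; right; left; rw [hp'', hk]; norm_num
      · obtain ⟨n, rfl⟩ : ∃ n, m = n + 2 := ⟨m - 2, by omega⟩
        obtain ⟨hn, hX⟩ := main_ge3 p hp hodd k a b c e n (by omega) ha hc hbe hem hkey
        subst hn
        have hX' : 2 ^ (k + 1) = p + 1 := by exact_mod_cast hX
        have hp' : 2 ^ (k + 1) - 1 = p := by omega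
        right; right; right
        exact ⟨k, by rw [hp']; exact hp, by rw [hp']⟩
    -- divisors of 2^k p^m
    have hdiv : ∀ d, d ∣ 2 ^ k * p ^ m → ∃ a b, a ≤ k ∧ b ≤ m ∧ d = 2 ^ a * p ^ b := by
      intro d hd
      obtain ⟨y, z, hy, hz, hyz⟩ := (Nat.dvd_mul).1 hd
      obtain ⟨a, ha, rfl⟩ := (Nat.dvd_prime_pow Nat.prime_two).1 hy
      obtain ⟨b, hb, rfl⟩ := (Nat.dvd_prime_pow hp).1 hz
      exact ⟨a, b, ha, hb, hyz.symm⟩
    obtain ⟨a, b, ha, hb, rfl⟩ := hdiv d₁ h1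
    obtain ⟨c, e, hc, he, rfl⟩ := hdiv d₂ h2
    rcases lt_trichotomy b e with hlt | heq | hgt
    · exact key _ _ ⟨a, b, c, e, ha, hc, he, Or.inl hlt, rfl, rfl⟩ hsum
    · rcases lt_trichotomy a c with hlt' | heq' | hgt'
      · exact key _ _ ⟨a, b, c, e, ha, hc, he, Or.inr ⟨heq, hlt'⟩, rfl, rfl⟩ hsum
      · exfalso; apply hne; rw [heq, heq']
      · exact key _ _ ⟨c, e, a, b, hc, ha, hb, Or.inr ⟨heq.symm, hgt'⟩, rfl, rfl⟩
          (by rw [hsum]; ring)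
    · exact key _ _ ⟨c, e, a, b, hc, ha, hb, Or.inl hgt, rfl, rfl⟩ (by rw [hsum]; ring)

lemma mersenne_family (j : ℕ) (hq : (2 ^ (j + 1) - 1).Prime) :
    IsTwoNearPerfect (2 ^ j * (2 ^ (j + 1) - 1) ^ 3) := by
  obtain ⟨q, hqdef⟩ : ∃ q, q = 2 ^ (j + 1) - 1 := ⟨_, rfl⟩
  rw [← hqdef] at hq ⊢
  have hpow : 1 ≤ 2 ^ (j + 1) := Nat.one_le_two_pow
  have hq1 : q + 1 = 2 ^ (j + 1) := by omega
  have hq1' : q + 1 = 2 * 2 ^ j := by rw [hq1]; ring
  have hodd : Odd q := by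
    rw [Nat.odd_iff]; omega
  refine ⟨by have := hq.pos; positivity, q, q ^ 2, ?_, ?_, ?_, ?_⟩
  · exact Dvd.dvd.mul_left (dvd_pow_self _ (by norm_num)) _
  · exact Dvd.dvd.mul_left (pow_dvd_pow _ (by norm_num)) _
  · have := hq.two_le
    nlinarith
  · rw [sum_divisors_two_pow_mul j 3 q hq hodd]
    have e1 : (∑ i ∈ range (j + 1), 2 ^ i) = q := by
      have := Nat.geomSum_eq (m := 2) le_rfl (j + 1)
      rw [this]; simp [hqdef]
    rw [e1]
    have e2 : 2 * (2 ^ j * q ^ 3) = (q + 1) * q ^ 3 := by rw [hq1']; ring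
    rw [e2]
    simp [sum_range_succ]
    ring

/-- Classification of the 2-near perfect numbers `2^k p^m` with `m ≥ 2`, and the resulting
equivalence of the finiteness question with finiteness of the set of Mersenne primes. -/
theorem result :
    (∀ n : ℕ, (∃ k p m : ℕ, p.Prime ∧ 2 ≤ m ∧ n = 2 ^ k * p ^ m ∧ IsTwoNearPerfect n) ↔
      (n = 18 ∨ n = 36 ∨ n = 200 ∨
        ∃ j : ℕ, (2 ^ (j + 1) - 1).Prime ∧ n = 2 ^ j * (2 ^ (j + 1) - 1) ^ 3)) ∧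
    ({n : ℕ | ∃ k p m : ℕ, p.Prime ∧ 2 ≤ m ∧ n = 2 ^ k * p ^ m ∧ IsTwoNearPerfect n}.Finite ↔
      {q : ℕ | q.Prime ∧ ∃ r : ℕ, q = 2 ^ r - 1}.Finite) := by
  have hclass : ∀ n : ℕ,
      (∃ k p m : ℕ, p.Prime ∧ 2 ≤ m ∧ n = 2 ^ k * p ^ m ∧ IsTwoNearPerfect n) ↔
      (n = 18 ∨ n = 36 ∨ n = 200 ∨
        ∃ j : ℕ, (2 ^ (j + 1) - 1).Prime ∧ n = 2 ^ j * (2 ^ (j + 1) - 1) ^ 3) := by
    intro n
    constructor
    · rintro ⟨k, p, m, hp, hm, rfl, h⟩
      exact main_dir k m p hp hm h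
    · rintro (rfl | rfl | rfl | ⟨j, hj, rfl⟩)
      · refine ⟨1, 3, 2, by norm_num, le_rfl, by norm_num, by norm_num, 1, 2, ?_, ?_, ?_, ?_⟩
          <;> decide
      · refine ⟨2, 3, 2, by norm_num, le_rfl, by norm_num, by norm_num, 1, 18, ?_, ?_, ?_, ?_⟩
          <;> decide
      · refine ⟨3, 5, 2, by norm_num, le_rfl, by norm_num, by norm_num, 25, 40, ?_, ?_, ?_, ?_⟩
          <;> decide
      · exact ⟨j, 2 ^ (j + 1) - 1, 3, hj, by norm_num, rfl, mersenne_family j hj⟩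
  refine ⟨hclass, ?_⟩
  constructor
  · intro hfin
    -- map q ↦ ((q+1)/2) q^3 is injective into the set
    have hinj : Set.InjOn (fun q : ℕ => (q + 1) / 2 * q ^ 3)
        {q : ℕ | q.Prime ∧ ∃ r : ℕ, q = 2 ^ r - 1} := by
      have hmono : ∀ q₁ q₂ : ℕ, 0 < q₁ → q₁ < q₂ →
          (q₁ + 1) / 2 * q₁ ^ 3 < (q₂ + 1) / 2 * q₂ ^ 3 := by
        intro q₁ q₂ h0 hlt
        have h1 : (q₁ + 1) / 2 ≤ (q₂ + 1) / 2 := by omega
        have h2 : q₁ ^ 3 < q₂ ^ 3 := Nat.pow_lt_pow_left hlt (by norm_num)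
        have h3 : 0 < (q₂ + 1) / 2 := by omega
        calc (q₁ + 1) / 2 * q₁ ^ 3 ≤ (q₂ + 1) / 2 * q₁ ^ 3 := Nat.mul_le_mul_right _ h1
          _ < (q₂ + 1) / 2 * q₂ ^ 3 := Nat.mul_lt_mul_of_pos_left h2 h3
      intro q₁ h₁ q₂ h₂ heq
      rcases lt_trichotomy q₁ q₂ with h | h | h
      · exact absurd heq (ne_of_lt (hmono _ _ h₁.1.pos h))
      · exact h
      · exact absurd heq (ne_of_gt (hmono _ _ h₂.1.pos h))
    refine Set.Finite.of_finite_image (hfin.subset ?_) hinj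
    rintro _ ⟨q, ⟨hq, r, hr⟩, rfl⟩
    have hr0 : r ≠ 0 := by
      rintro rfl
      rw [hr] at hq
      norm_num at hq
    obtain ⟨j, rfl⟩ : ∃ j, r = j + 1 := ⟨r - 1, by omega⟩
    have hpow : 1 ≤ 2 ^ (j + 1) := Nat.one_le_two_pow
    have e1 : (q + 1) / 2 = 2 ^ j := by
      have : q + 1 = 2 * 2 ^ j := by
        have : 2 ^ (j + 1) = 2 * 2 ^ j := by ring
        omega
      omega
    refine (hclass _).2 (Or.inr (Or.inr (Or.inr ⟨j, hr ▸ hq, ?_⟩)))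
    show (q + 1) / 2 * q ^ 3 = _
    rw [e1, hr]
  · intro hfin
    have : {n : ℕ | ∃ k p m : ℕ, p.Prime ∧ 2 ≤ m ∧ n = 2 ^ k * p ^ m ∧ IsTwoNearPerfect n} ⊆
        {18, 36, 200} ∪ (fun q : ℕ => (q + 1) / 2 * q ^ 3) ''
          {q : ℕ | q.Prime ∧ ∃ r : ℕ, q = 2 ^ r - 1} := by
      intro n hn
      rcases (hclass n).1 hn with h | h | h | ⟨j, hj, h⟩
      · left; simp [h]
      · left; simp [h]
      · left; simp [h]
      · right
        refine ⟨2 ^ (j + 1) - 1, ⟨hj, j + 1, rfl⟩, ?_⟩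
        have hpow : 1 ≤ 2 ^ (j + 1) := Nat.one_le_two_pow
        have e1 : (2 ^ (j + 1) - 1 + 1) / 2 = 2 ^ j := by
          have : 2 ^ (j + 1) = 2 * 2 ^ j := by ring
          omega
        show (2 ^ (j + 1) - 1 + 1) / 2 * (2 ^ (j + 1) - 1) ^ 3 = n
        rw [e1, h]
    refine Set.Finite.subset ?_ this
    exact Set.Finite.union (by simp) (hfin.image _)

end Pool.Agent.Results.MP_d695ac_nt.Classification
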